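import Pool.Agent.Q165.BP.Dual3

set_option autoImplicit false

open MeasureTheory

namespace Pool.Agent.Results.MP_dd244f_an.ModesUpToN

/-- The `n`-th power of the Beurling transform: the Fourier multiplier with symbol
`(conj ξ / ξ) ^ n`, written with explicit Fourier integrals. -/
noncomputable def T (n : ℕ) (f : ℂ → ℂ) (z : ℂ) : ℂ :=
  ∫ ξ : ℂ,
    Complex.exp (2 * (Real.pi : ℂ) * Complex.I * (((z.re * ξ.re + z.im * ξ.im : ℝ)) : ℂ)) *
      ((starRingEnd ℂ ξ / ξ) ^ n *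
        ∫ x : ℂ, Complex.exp (-(2 * (Real.pi : ℂ) * Complex.I *
          (((x.re * ξ.re + x.im * ξ.im : ℝ)) : ℂ))) * f x)

/-- The constant `(1/q)_n / (1/p)_n` of the question. -/
noncomputable def K (n : ℕ) (p : ℝ) : ℝ :=
  (ascPochhammer ℝ n).eval (1 - 1 / p) / (ascPochhammer ℝ n).eval (1 / p)

/-- For all `n ≥ 1`, all real `p ≥ 2`, all integers `k ≤ n` and all Schwartz functions `f` of
angular type `k`: the norm of `T ^ n f` in `L^p` is at most
`(1 + 11/5 * min (n, n - k) ^ (3/4)) ^ (1 - 2/p)` times that of `f`, and this constant is at most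
the constant of the question. -/
theorem result (n : ℕ) (hn : 1 ≤ n) (p : ℝ) (hp : 2 ≤ p) (k : ℤ) (hk : k ≤ n) :
    (∀ f : SchwartzMap ℂ ℂ, (∀ a z : ℂ, ‖a‖ = 1 → f (a * z) = a ^ k * f z) →
      eLpNorm (T n f) (ENNReal.ofReal p) (volume : Measure ℂ) ≤
        ENNReal.ofReal ((1 + 11 / 5 * (min (n : ℝ) ((n : ℝ) - (k : ℝ))) ^ (3 / 4 : ℝ)) ^ (1 - 2 / p)) *
          eLpNorm f (ENNReal.ofReal p) (volume : Measure ℂ)) ∧
    (1 + 11 / 5 * (min (n : ℝ) ((n : ℝ) - (k : ℝ))) ^ (3 / 4 : ℝ)) ^ (1 - 2 / p) ≤ K n p := by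
  have e : (min (n : ℝ) ((n : ℝ) - (k : ℝ))) = ((min n ((n - k).toNat) : ℕ) : ℝ) := by
    have h1 : (((n - k).toNat : ℕ) : ℤ) = n - k := Int.toNat_of_nonneg (by omega)
    have h2 : (((n - k).toNat : ℕ) : ℝ) = (n : ℝ) - (k : ℝ) := by
      have := congrArg (fun t : ℤ => (t : ℝ)) h1
      push_cast at this
      exact this
    rw [Nat.cast_min, h2]
  rw [e]
  exact ⟨fun f hf => Pool.Agent.Q165.BP.mainp n k hk hp f hf,
    Pool.Agent.Q165.BP.Bd_KK _ n hn (min_le_left _ _) hp⟩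

end Pool.Agent.Results.MP_dd244f_an.ModesUpToN
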