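import Pool.Agent.Q75.BN.Fin

set_option autoImplicit false

open MeasureTheory

namespace Pool.Agent.Results.MP_dd244f_an.NonCriticalModes

/-- The `n`-th power of the Beurling transform: the Fourier multiplier with symbol
`(conj ξ / ξ) ^ n`, in the literal form of the frozen statement. -/
noncomputable def T (n : ℕ) (f : ℂ → ℂ) (z : ℂ) : ℂ :=
  ∫ ξ : ℂ,
    Complex.exp (2 * (Real.pi : ℂ) * Complex.I * (((z.re * ξ.re + z.im * ξ.im : ℝ)) : ℂ)) *
      ((starRingEnd ℂ ξ / ξ) ^ n *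
        ∫ x : ℂ, Complex.exp (-(2 * (Real.pi : ℂ) * Complex.I *
          (((x.re * ξ.re + x.im * ξ.im : ℝ)) : ℂ))) * f x)

/-- The constant `(1/q)_n / (1/p)_n` of the question. -/
noncomputable def K (n : ℕ) (p : ℝ) : ℝ :=
  (ascPochhammer ℝ n).eval (1 - 1 / p) / (ascPochhammer ℝ n).eval (1 / p)

/-- The constant `E n = exp (2 (1 + 1/3 + ... + 1/(2n-1)))`. -/
noncomputable def E (n : ℕ) : ℝ := Real.exp (∑ j ∈ Finset.range n, 2 / (2 * (j : ℝ) + 1))

/-- For every `n ≥ 1`, every real `p ≥ 2` and every integer `k ≠ 2 n`, every Schwartz function `f`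
of angular mode `k`, that is, `f (r e^{iθ}) = e^{i k θ} φ(r)`, satisfies
`‖T ^ n f‖_p ≤ E n ^ (1 - 2 / p) ‖f‖_p`, where `E n ^ (1 - 2 / p) ≤ (1/q)_n / (1/p)_n`. So the
inequality of the question holds on every angular mode except `k = 2 n`. -/
theorem result (n : ℕ) (p : ℝ) (hn : 1 ≤ n) (hp : 2 ≤ p) (k : ℤ) (hk : k ≠ 2 * (n : ℤ))
    (f : SchwartzMap ℂ ℂ) (hf : ∀ a z : ℂ, ‖a‖ = 1 → f (a * z) = a ^ k * f z) :
    eLpNorm (T n f) (ENNReal.ofReal p) (volume : Measure ℂ)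
        ≤ ENNReal.ofReal (E n ^ (1 - 2 / p)) * eLpNorm f (ENNReal.ofReal p) (volume : Measure ℂ) ∧
      E n ^ (1 - 2 / p) ≤ K n p := by
  have hK : K n p = Y282.RB.Cn p n := (Y282.RB.K3.main n p (by linarith)).symm
  refine ⟨Q75.BN.allE n hn hp k hk f hf, ?_⟩
  rw [hK]
  exact Q75.BM.En_le_Cn n hp

end Pool.Agent.Results.MP_dd244f_an.NonCriticalModes
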