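import Pool.Agent.Q168.BT.Near
import Pool.Agent.TH55.PowE

/-!
# The powers of the Beurling transform on functions with angular spectrum near `n`

A Schwartz function `f` is in the angular class `k` if `f (a z) = a ^ k f z` for `|a| = 1`, that is, if
`f (r e^{iθ}) = e^{ikθ} φ(r)`.

**Theorem.**
1. `T ^ n f (z) = T ^ m f (conj z)` for all `f` in the class `n + m`.
2. `T ^ n f (z) = f (conj z)` for all `f` in the class `n`; so `T ^ n` is isometric on this class.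
3. If `f` is a sum of functions of the classes `n - d, ..., n + d` (`d ≤ n`), then
   `‖T ^ n f‖_p ≤ (1 + e (p - 1) d (d + 3) / 2) ‖f‖_p` for all `p ≥ 2`, a bound independent of `n`.
4. `‖T ^ n f‖_p ≤ C_m (p - 1) ‖f‖_p` for all `f` in the class `n + m`, `m ≥ 1`, `p ≥ 2`.
5. For all `p > 2` and all `d` the inequality of the question is true for all large `n` on the sums of
   functions of the classes `n - d, ..., n + d`.
-/

set_option autoImplicit false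

open MeasureTheory

namespace Pool.Agent.Results.MP_dd244f_an.ReflectionPrinciple

/-- The `n`-th power of the Beurling transform: the Fourier multiplier with symbol
`(conj ξ / ξ) ^ n`, in the literal form of the frozen statement. -/
noncomputable def T (n : ℕ) (f : SchwartzMap ℂ ℂ) (z : ℂ) : ℂ :=
  ∫ ξ : ℂ,
    Complex.exp (2 * (Real.pi : ℂ) * Complex.I * (((z.re * ξ.re + z.im * ξ.im : ℝ)) : ℂ)) *
      ((starRingEnd ℂ ξ / ξ) ^ n *
        ∫ x : ℂ, Complex.exp (-(2 * (Real.pi : ℂ) * Complex.I *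
          (((x.re * ξ.re + x.im * ξ.im : ℝ)) : ℂ))) * f x)

/-- The angular class `k`: `f (r e^{iθ}) = e^{ikθ} φ(r)`. -/
def Cls (k : ℕ) (f : SchwartzMap ℂ ℂ) : Prop := ∀ a z : ℂ, ‖a‖ = 1 → f (a * z) = a ^ k * f z

/-- `f` is a sum of Schwartz functions of the classes `n - d, ..., n + d`. -/
def Near (n d : ℕ) (f : SchwartzMap ℂ ℂ) : Prop :=
  ∃ g : ℕ → SchwartzMap ℂ ℂ, (∀ k, Cls k (g k)) ∧ f = ∑ k ∈ Finset.Icc (n - d) (n + d), g k

/-- The constant `(1/q)_n / (1/p)_n` of the question. -/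
noncomputable def K (n : ℕ) (p : ℝ) : ℝ :=
  (ascPochhammer ℝ n).eval (1 - 1 / p) / (ascPochhammer ℝ n).eval (1 / p)

/-- The constant `(m + 1) / 2 * ((m + 1) / (m - 1)) ^ ((m - 1) / 2)`, which is `1` for `m = 1`. -/
noncomputable def C (m : ℕ) : ℝ :=
  ((m : ℝ) + 1) / 2 * (((m : ℝ) + 1) / ((m : ℝ) - 1)) ^ (((m : ℝ) - 1) / 2)

/-- `‖T ^ n f‖_p ≤ C ‖f‖_p` -/
def Le (p : ℝ) (n : ℕ) (C : ℝ) (f : SchwartzMap ℂ ℂ) : Prop :=
  eLpNorm (T n f) (ENNReal.ofReal p) (volume : Measure ℂ)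
    ≤ ENNReal.ofReal C * eLpNorm f (ENNReal.ofReal p) (volume : Measure ℂ)

/-- **The powers of the Beurling transform near the diagonal.** -/
theorem result :
    (∀ (n m : ℕ) (f : SchwartzMap ℂ ℂ), Cls (n + m) f →
      ∀ z : ℂ, T n f z = T m f ((starRingEnd ℂ) z)) ∧
    (∀ (n : ℕ) (f : SchwartzMap ℂ ℂ), Cls n f → ∀ z : ℂ, T n f z = f ((starRingEnd ℂ) z)) ∧
    (∀ p : ℝ, 2 ≤ p → ∀ n d : ℕ, d ≤ n → ∀ f : SchwartzMap ℂ ℂ, Near n d f →
      Le p n (1 + Real.exp 1 * (d * (d + 3) / 2) * (p - 1)) f) ∧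
    (∀ p : ℝ, 2 ≤ p → ∀ n m : ℕ, 1 ≤ m → ∀ f : SchwartzMap ℂ ℂ, Cls (n + m) f →
      Le p n (C m * (p - 1)) f) ∧
    ∀ p : ℝ, 2 < p → ∀ d : ℕ, ∃ n₀ : ℕ, ∀ n : ℕ, n₀ ≤ n → ∀ f : SchwartzMap ℂ ℂ, Near n d f →
      Le p n (K n p) f := by
  have near : ∀ p : ℝ, 2 ≤ p → ∀ n d : ℕ, d ≤ n → ∀ f : SchwartzMap ℂ ℂ, Near n d f →
      Le p n (1 + Real.exp 1 * (d * (d + 3) / 2) * (p - 1)) f := by
    rintro p hp n d hd f ⟨g, hg, rfl⟩
    exact Q168.BT.near_bound p hp (fun m hm f => Pool.Agent.TH55.PowA.main p hp m hm f) n d hd g hg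
  refine ⟨fun n m f hf z => Q168.BT.refl_up n m hf z, fun n f hf z => Q168.BT.refl_mid n hf z, near,
    fun p hp n m hm f hf => ?_, fun p hp d => ?_⟩
  · exact Q168.BT.up_bound n m hf (Pool.Agent.TH55.PowA.main p hp m hm f)
  · obtain ⟨n₀, hn₀⟩ := ((Q168.BT.K_tendsto p hp).eventually_ge_atTop
      (1 + Real.exp 1 * (d * (d + 3) / 2) * (p - 1))).exists_forall_of_atTop
    refine ⟨max n₀ d, fun n hn f hf => ?_⟩
    have h1 := near p hp.le n d ((le_max_right _ _).trans hn) f hf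
    have h2 : 1 + Real.exp 1 * (d * (d + 3) / 2) * (p - 1) ≤ K n p :=
      hn₀ n ((le_max_left _ _).trans hn)
    refine le_trans h1 ?_
    exact mul_le_mul_left (ENNReal.ofReal_le_ofReal h2) _

end Pool.Agent.Results.MP_dd244f_an.ReflectionPrinciple
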